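import Pool.Agent.TH659.FF.Wall

set_option autoImplicit false

namespace Pool.Agent.TH659.FF

open Ext

section
variable {α : Type} [PartialOrder α] {col ch : α → ℕ} {w m : ℕ}

theorem ecol_lt (hcol : ∀ x, col x < m) (x : Ext α col w m) :
    ecol x < (w + 1) * m + m := by
  have e : (w + 1) * m + m = (w + 2) * m := by ring
  cases x with
  | L r j =>
    show (w - (r.val + 1)) * m + j.val < _
    rw [e]; exact lt_of_q j.2 (by omega)
  | W r j =>
    show (w - r.val) * m + j.val < _
    rw [e]; exact lt_of_q j.2 (by omega)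
  | T a =>
    show (w + 1) * m + col a < _
    have := hcol a; omega
  | V r j a h =>
    show (w - r.val) * m + col a < _
    rw [e]; exact lt_of_q (hcol a) (by omega)

theorem ech_lt (hch : ∀ x, ch x < w) (x : Ext α col w m) : ech ch x < w + 1 := by
  cases x with
  | L r j => show r.val < _; omega
  | W r j => show w < _; omega
  | T a => show ch a < _; have := hch a; omega
  | V r j a h => show ch a < _; have := hch a; omega

theorem ech_chain (hch : ∀ x, ch x < w) (hcc : ∀ x y, ch x = ch y → (x ≤ y ∨ y ≤ x))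
    (x y : Ext α col w m) (h : ech ch x = ech ch y) : x ≤ y ∨ y ≤ x := by
  simp only [le_def]
  cases x <;> cases y <;> simp only [ech] at h <;> simp only [le, lx]
  case L.L r j r' j' => omega
  case L.W r j r' j' => have := r.2; omega
  case L.T => simp
  case L.V => simp
  case W.L r j r' j' => have := r'.2; omega
  case W.W r j r' j' => omega
  case W.T r j a => have := hch a; omega
  case W.V r j r' j' a ha => have := hch a; omega
  case T.L => simp
  case T.W a r j => have := hch a; omega
  case T.T a b => exact hcc a b h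
  case T.V => simp
  case V.L => simp
  case V.W r' j' a ha r j => have := hch a; omega
  case V.T => simp
  case V.V r j a ha r' j' b hb =>
    by_cases hr : r.val = r'.val ∧ j.val = j'.val
    · rcases hcc a b h with h1 | h1
      · left; right; exact ⟨hr.1, hr.2, h1⟩
      · right; right; exact ⟨hr.1.symm, hr.2.symm, h1⟩
    · omega

theorem ecol_chain (hcol : ∀ x, col x < m) (hcc : ∀ x y, col x = col y → (x ≤ y ∨ y ≤ x))
    (x y : Ext α col w m) (h : ecol x = ecol y) : x ≤ y ∨ y ≤ x := by
  simp only [le_def]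
  cases x <;> cases y <;> simp only [ecol] at h <;> simp only [le, lx]
  case L.L r j r' j' =>
    have := dm j.2 j'.2 h
    have := r.2; have := r'.2; omega
  case L.W r j r' j' =>
    have := dm j.2 j'.2 h
    have := r.2; have := r'.2; omega
  case L.T => simp
  case L.V => simp
  case W.L r j r' j' =>
    have := dm j.2 j'.2 h
    have := r.2; have := r'.2; omega
  case W.W r j r' j' => omega
  case W.T r j a =>
    have := lt_of_q j.2 (show w - r.val < w + 1 by omega)
    omega
  case W.V r j r' j' a ha =>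
    have := dm j.2 (hcol a) h
    have := r.2; have := r'.2; omega
  case T.L => simp
  case T.W a r j =>
    have := lt_of_q j.2 (show w - r.val < w + 1 by omega)
    omega
  case T.T a b => exact hcc a b (by omega)
  case T.V => simp
  case V.L => simp
  case V.W r' j' a ha r j =>
    have := dm (hcol a) j.2 h
    have := r.2; have := r'.2; omega
  case V.T => simp
  case V.V r j a ha r' j' b hb =>
    have h0 := dm (hcol a) (hcol b) h
    by_cases hr : r.val = r'.val ∧ j.val = j'.val
    · rcases hcc a b h0.2 with h1 | h1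
      · left; right; exact ⟨hr.1, hr.2, h1⟩
      · right; right; exact ⟨hr.1.symm, hr.2.symm, h1⟩
    · omega

theorem exists_qi {m c n : ℕ} (hm : 0 < m) (h : c < n * m) :
    ∃ q i, q < n ∧ i < m ∧ c = q * m + i := by
  refine ⟨c / m, c % m, ?_, Nat.mod_lt _ hm, ?_⟩
  · exact Nat.div_lt_of_lt_mul (by rw [Nat.mul_comm]; exact h)
  · have := Nat.div_add_mod c m
    rw [Nat.mul_comm]; exact this.symm

theorem ewit (hcol : ∀ x, col x < m)
    (hwit : ∀ x, ∀ c, c < col x → ∃ y, col y = c ∧ ¬ x ≤ y ∧ ¬ y ≤ x)
    (hsurj : ∀ c, c < m → ∃ x, col x = c)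
    (x : Ext α col w m) (c : ℕ) (hc : c < ecol x) :
    ∃ y, ecol y = c ∧ ¬ x ≤ y ∧ ¬ y ≤ x := by
  simp only [le_def]
  cases x with
  | L r j =>
    have hr := r.2
    have hj := j.2
    have hm : 0 < m := by omega
    change c < (w - (r.val + 1)) * m + j.val at hc
    obtain ⟨q, i, hq, hi, rfl⟩ := exists_qi hm
      (lt_trans hc (lt_of_q hj (show w - (r.val + 1) < w + 1 by omega)))
    rcases dlt hj hc with h1 | ⟨h1, h2⟩
    · refine ⟨L ⟨w - q - 1, by omega⟩ ⟨i, hi⟩, ?_, ?_, ?_⟩
      · show (w - ((w - q - 1) + 1)) * m + i = q * m + i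
        have : w - ((w - q - 1) + 1) = q := by omega
        rw [this]
      · simp only [le]; omega
      · simp only [le]; omega
    · refine ⟨W ⟨r.val + 1, by omega⟩ ⟨i, hi⟩, ?_, ?_, ?_⟩
      · show (w - (r.val + 1)) * m + i = q * m + i
        rw [h1]
      · simp only [le, lx]; omega
      · simp only [le]; exact id
  | W r j =>
    have hr := r.2
    have hj := j.2
    have hm : 0 < m := by omega
    change c < (w - r.val) * m + j.val at hc
    obtain ⟨q, i, hq, hi, rfl⟩ := exists_qi hm
      (lt_trans hc (lt_of_q hj (show w - r.val < w + 1 by omega)))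
    rcases dlt hj hc with h1 | ⟨h1, h2⟩
    · refine ⟨L ⟨w - q - 1, by omega⟩ ⟨i, hi⟩, ?_, ?_, ?_⟩
      · show (w - ((w - q - 1) + 1)) * m + i = q * m + i
        have : w - ((w - q - 1) + 1) = q := by omega
        rw [this]
      · simp only [le]; exact id
      · simp only [le, lx]; omega
    · obtain ⟨a, ha⟩ := hsurj i hi
      refine ⟨V r ⟨i, hi⟩ a (le_of_eq ha), ?_, ?_, ?_⟩
      · show (w - r.val) * m + col a = q * m + i
        rw [h1, ha]
      · simp only [le, lx]; omega
      · simp only [le]; exact id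
  | T a =>
    have ha := hcol a
    have hm : 0 < m := by omega
    change c < (w + 1) * m + col a at hc
    by_cases h0 : c < (w + 1) * m
    · obtain ⟨q, i, hq, hi, rfl⟩ := exists_qi hm h0
      refine ⟨W ⟨w - q, by omega⟩ ⟨i, hi⟩, ?_, ?_, ?_⟩
      · show (w - (w - q)) * m + i = q * m + i
        have : w - (w - q) = q := by omega
        rw [this]
      · simp only [le]; exact id
      · simp only [le]; exact id
    · obtain ⟨b, hb, h1, h2⟩ := hwit a (c - (w + 1) * m) (by omega)
      refine ⟨T b, ?_, ?_, ?_⟩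
      · show (w + 1) * m + col b = c
        omega
      · simp only [le]; exact h1
      · simp only [le]; exact h2
  | V r j a h =>
    have ha := hcol a
    have hr := r.2
    have hm : 0 < m := by omega
    change c < (w - r.val) * m + col a at hc
    obtain ⟨q, i, hq, hi, rfl⟩ := exists_qi hm
      (lt_trans hc (lt_of_q ha (show w - r.val < w + 1 by omega)))
    rcases dlt ha hc with h1 | ⟨h1, h2⟩
    · refine ⟨W ⟨w - q, by omega⟩ ⟨i, hi⟩, ?_, ?_, ?_⟩
      · show (w - (w - q)) * m + i = q * m + i
        have : w - (w - q) = q := by omega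
        rw [this]
      · simp only [le]; exact id
      · simp only [le, lx]; omega
    · obtain ⟨b, hb, h3, h4⟩ := hwit a i h2
      refine ⟨V r j b (by omega), ?_, ?_, ?_⟩
      · show (w - r.val) * m + col b = q * m + i
        rw [h1, hb]
      · simp only [le, lx]
        rintro (h5 | h5)
        · exact h5.2 (by simp)
        · exact h3 h5.2.2
      · simp only [le, lx]
        rintro (h5 | h5)
        · exact h5.2 (by simp)
        · exact h4 h5.2.2

theorem esurj (hcol : ∀ x, col x < m) (hsurj : ∀ c, c < m → ∃ x, col x = c)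
    (c : ℕ) (hc : c < (w + 1) * m + m) : ∃ x : Ext α col w m, ecol x = c := by
  by_cases h0 : c < (w + 1) * m
  · have hm : 0 < m := by
      rcases Nat.eq_zero_or_pos m with h | h
      · subst h; omega
      · exact h
    obtain ⟨q, i, hq, hi, rfl⟩ := exists_qi hm h0
    refine ⟨W ⟨w - q, by omega⟩ ⟨i, hi⟩, ?_⟩
    show (w - (w - q)) * m + i = q * m + i
    have : w - (w - q) = q := by omega
    rw [this]
  · obtain ⟨a, ha⟩ := hsurj (c - (w + 1) * m) (by omega)
    refine ⟨T a, ?_⟩
    show (w + 1) * m + col a = c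
    omega

/-- kind of an element -/
def kd : Ext α col w m → ℕ
  | L _ _ => 0
  | W _ _ => 1
  | T _ => 2
  | V _ _ _ _ => 3

/-- chain of an `L`-element -/
def lc : Ext α col w m → ℕ
  | L r _ => r.val
  | _ => 0

/-- block of a `V`-element -/
def bl : Ext α col w m → ℕ × ℕ
  | V r j _ _ => (r.val, j.val)
  | _ => (0, 0)

omit [PartialOrder α] in
theorem kd_lt (x : Ext α col w m) : kd x < 4 := by
  cases x <;> simp [kd]

theorem k1 {x y : Ext α col w m} (hx : kd x = 1) (hy : kd y = 1) : x ≤ y ∨ y ≤ x := by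
  cases x <;> cases y <;> simp [kd] at hx hy
  simp only [le_def, le, lx]; omega

theorem k2 {x y : Ext α col w m} (hx : kd x = 0) (hy : kd y = 2 ∨ kd y = 3) : x ≤ y := by
  cases x <;> cases y <;> simp [kd] at hx hy <;> simp only [le_def, le]

theorem k3 {x y : Ext α col w m} (hx : kd x = 2) (hy : kd y = 3) : x ≤ y := by
  cases x <;> cases y <;> simp [kd] at hx hy <;> simp only [le_def, le]

theorem k4 {x y : Ext α col w m} (hx : kd x = 1) (hy : kd y = 0) : ¬ x ≤ y := by
  cases x <;> cases y <;> simp [kd] at hx hy <;> simp only [le_def, le] <;> exact id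

theorem k5 {x y : Ext α col w m} (hx : kd x = 3) (hy : kd y = 1) : ¬ x ≤ y := by
  cases x <;> cases y <;> simp [kd] at hx hy <;> simp only [le_def, le] <;> exact id

theorem k6 {x y : Ext α col w m} (hx : kd x = 2) (hy : kd y = 1) : ¬ x ≤ y := by
  cases x <;> cases y <;> simp [kd] at hx hy <;> simp only [le_def, le] <;> exact id

theorem k6' {x y : Ext α col w m} (hx : kd x = 2) (hy : kd y = 1) : ¬ y ≤ x := by
  cases x <;> cases y <;> simp [kd] at hx hy <;> simp only [le_def, le] <;> exact id

theorem k7 {x y : Ext α col w m} (hx : kd x = 3) (hy : kd y = 3) (h1 : ¬ x ≤ y) (h2 : ¬ y ≤ x) :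
    bl x = bl y := by
  cases x <;> cases y <;> simp [kd] at hx hy
  case V.V r j a ha r' j' b hb =>
    simp only [le_def, le, lx] at h1 h2
    simp only [bl, Prod.mk.injEq]
    by_contra hc
    have h3 := fun hh => h1 (Or.inl hh)
    have h4 := fun hh => h2 (Or.inl hh)
    omega

theorem k8 {x y z : Ext α col w m} (hx : kd x = 1) (hy : kd y = 3) (hz : kd z = 3)
    (hb : bl y = bl z) (h1 : ¬ x ≤ y) : ¬ x ≤ z := by
  cases x <;> cases y <;> cases z <;> simp [kd] at hx hy hz
  simp only [le_def, le, lx] at h1 ⊢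
  simp only [bl, Prod.mk.injEq] at hb
  omega

theorem k9 {x y : Ext α col w m} (hx : kd x = 0) (hy : kd y = 0) :
    (x ≤ y ∨ y ≤ x) ↔ lc x = lc y := by
  cases x <;> cases y <;> simp [kd] at hx hy
  simp only [le_def, le, lc]
  omega

/-- An embedded path stays in one block. -/
theorem efree (hfree : ∀ φ : Fin 11 → α,
      ¬ (∀ i j : Fin 11, φ i ≤ φ j ↔ (i.val = j.val ∨ i.val + 2 ≤ j.val)))
    (φ : Fin 11 → Ext α col w m)
    (hφ : ∀ i j : Fin 11, φ i ≤ φ j ↔ (i.val = j.val ∨ i.val + 2 ≤ j.val)) : False := by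
  obtain ⟨a, haφ⟩ : ∃ a : ℕ → Ext α col w m, ∀ i : Fin 11, a i.val = φ i :=
    ⟨fun n => φ ⟨n % 11, Nat.mod_lt _ (by norm_num)⟩, fun i =>
      congrArg φ (Fin.ext (Nat.mod_eq_of_lt i.2))⟩
  have ha : ∀ i j, i < 11 → j < 11 → (a i ≤ a j ↔ (i = j ∨ i + 2 ≤ j)) := by
    intro i j hi hj
    have h1 := haφ ⟨i, hi⟩
    have h2 := haφ ⟨j, hj⟩
    have h3 := hφ ⟨i, hi⟩ ⟨j, hj⟩
    simp only at h1 h2 h3
    rw [h1, h2, h3]
  have hnl : ∀ n, n + 3 < 11 → kd (a n) = 0 → kd (a (n + 1)) = 0 → kd (a (n + 3)) = 0 → False := by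
    intro n hn h0 h1 h3
    have e1 : lc (a n) = lc (a (n + 3)) :=
      (k9 h0 h3).1 (Or.inl ((ha _ _ (by omega) (by omega)).2 (by omega)))
    have e2 : lc (a (n + 1)) = lc (a (n + 3)) :=
      (k9 h1 h3).1 (Or.inl ((ha _ _ (by omega) (by omega)).2 (by omega)))
    rcases (k9 h0 h1).2 (e1.trans e2.symm) with h | h
    · have := (ha _ _ (by omega) (by omega)).1 h
      omega
    · have := (ha _ _ (by omega) (by omega)).1 h
      omega
  by_cases hW : ∃ i, i < 11 ∧ kd (a i) = 1
  · -- some element of the spine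
    classical
    have hW' : ∃ n, n < 11 ∧ kd (a (10 - n)) = 1 := by
      obtain ⟨i, hi, h⟩ := hW
      exact ⟨10 - i, by omega, by rw [show 10 - (10 - i) = i by omega]; exact h⟩
    obtain ⟨i0, ⟨hi0, hk0⟩, hmin⟩ : ∃ i0, (i0 < 11 ∧ kd (a i0) = 1) ∧
        ∀ j, j < i0 → kd (a j) ≠ 1 := by
      refine ⟨Nat.find hW, Nat.find_spec hW, fun j hj hc => ?_⟩
      exact Nat.find_min hW hj ⟨lt_trans hj (Nat.find_spec hW).1, hc⟩
    obtain ⟨i1, ⟨hi1, hk1⟩, hmax⟩ : ∃ i1, (i1 < 11 ∧ kd (a i1) = 1) ∧
        ∀ j, i1 < j → j < 11 → kd (a j) ≠ 1 := by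
      refine ⟨10 - Nat.find hW', ⟨by omega, (Nat.find_spec hW').2⟩, fun j hj hj' hc => ?_⟩
      have hlt : 10 - j < Nat.find hW' := by omega
      refine Nat.find_min hW' hlt ⟨by omega, ?_⟩
      rw [show 10 - (10 - j) = j by omega]; exact hc
    have hA : ∀ j, j + 1 < i0 → kd (a j) = 0 := by
      intro j hj
      have h4 := kd_lt (a j)
      have hn1 := hmin j (by omega)
      have hle : a j ≤ a i0 := (ha _ _ (by omega) hi0).2 (by omega)
      have hn2 : kd (a j) ≠ 2 := fun h => k6 h hk0 hle
      have hn3 : kd (a j) ≠ 3 := fun h => k5 h hk0 hle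
      omega
    have hB : i0 ≤ 4 := by
      by_contra hc
      exact hnl 0 (by omega) (hA 0 (by omega)) (hA 1 (by omega)) (hA 3 (by omega))
    have hC : 9 ≤ i1 := by
      by_contra hc
      have hle : a i1 ≤ a (i1 + 2) := (ha _ _ hi1 (by omega)).2 (by omega)
      have hn0 : kd (a (i1 + 2)) ≠ 0 := fun h => k4 hk1 h hle
      have hn1 := hmax (i1 + 2) (by omega) (by omega)
      have hn2 : kd (a (i1 + 2)) ≠ 2 := fun h => k6' h hk1 hle
      have h4 := kd_lt (a (i1 + 2))
      have hk3 : kd (a (i1 + 2)) = 3 := by omega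
      have hm1 := hmax (i1 + 1) (by omega) (by omega)
      have hinc1 : ¬ a (i1 + 1) ≤ a (i1 + 2) := fun h => by
        have := (ha _ _ (by omega) (by omega)).1 h
        omega
      have hinc2 : ¬ a (i1 + 2) ≤ a (i1 + 1) := fun h => by
        have := (ha _ _ (by omega) (by omega)).1 h
        omega
      have hinc3 : ¬ a i1 ≤ a (i1 + 1) := fun h => by
        have := (ha _ _ (by omega) (by omega)).1 h
        omega
      have hm0 : kd (a (i1 + 1)) ≠ 0 := fun h => hinc1 (k2 h (Or.inr hk3))
      have hm2 : kd (a (i1 + 1)) ≠ 2 := fun h => hinc1 (k3 h hk3)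
      have hm4 := kd_lt (a (i1 + 1))
      have hm3 : kd (a (i1 + 1)) = 3 := by omega
      exact k8 hk1 hm3 hk3 (k7 hm3 hk3 hinc1 hinc2) hinc3 hle
    have hD : ∀ j, i0 + 2 ≤ j → j + 2 ≤ i1 → kd (a j) = 1 := by
      intro j h1 h2
      have hle1 : a i0 ≤ a j := (ha _ _ hi0 (by omega)).2 (by omega)
      have hle2 : a j ≤ a i1 := (ha _ _ (by omega) hi1).2 (by omega)
      have hn0 : kd (a j) ≠ 0 := fun h => k4 hk0 h hle1
      have hn2 : kd (a j) ≠ 2 := fun h => k6 h hk1 hle2
      have hn3 : kd (a j) ≠ 3 := fun h => k5 h hk1 hle2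
      have h4 := kd_lt (a j)
      omega
    rcases k1 (hD 6 (by omega) (by omega)) (hD 7 (by omega) (by omega)) with h | h
    · have := (ha _ _ (by omega) (by omega)).1 h
      omega
    · have := (ha _ _ (by omega) (by omega)).1 h
      omega
  · -- no element of the spine
    have hn1 : ∀ i, i < 11 → kd (a i) ≠ 1 := fun i hi h => hW ⟨i, hi, h⟩
    have hstep : ∀ i, i + 1 < 11 → kd (a i) = kd (a (i + 1)) := by
      intro i hi
      have h1 := hn1 i (by omega)
      have h2 := hn1 (i + 1) (by omega)
      have h3 := kd_lt (a i)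
      have h4 := kd_lt (a (i + 1))
      have hinc1 : ¬ a i ≤ a (i + 1) := fun h => by
        have := (ha _ _ (by omega) (by omega)).1 h
        omega
      have hinc2 : ¬ a (i + 1) ≤ a i := fun h => by
        have := (ha _ _ (by omega) (by omega)).1 h
        omega
      by_contra hc
      have c1 : ¬ (kd (a i) = 0 ∧ (kd (a (i + 1)) = 2 ∨ kd (a (i + 1)) = 3)) :=
        fun h => hinc1 (k2 h.1 h.2)
      have c2 : ¬ (kd (a (i + 1)) = 0 ∧ (kd (a i) = 2 ∨ kd (a i) = 3)) :=
        fun h => hinc2 (k2 h.1 h.2)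
      have c3 : ¬ (kd (a i) = 2 ∧ kd (a (i + 1)) = 3) := fun h => hinc1 (k3 h.1 h.2)
      have c4 : ¬ (kd (a (i + 1)) = 2 ∧ kd (a i) = 3) := fun h => hinc2 (k3 h.1 h.2)
      omega
    have hall : ∀ i, i < 11 → kd (a i) = kd (a 0) := by
      intro i
      induction i with
      | zero => intro _; rfl
      | succ n ih => intro h; rw [← hstep n h]; exact ih (by omega)
    have h4 := kd_lt (a 0)
    have h01 := hn1 0 (by omega)
    rcases (by omega : kd (a 0) = 0 ∨ kd (a 0) = 2 ∨ kd (a 0) = 3) with h | h | h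
    · exact hnl 0 (by omega) h ((hall 1 (by omega)).trans h) ((hall 3 (by omega)).trans h)
    · have hT : ∀ i : Fin 11, ∃ x, φ i = T x := by
        intro i
        have h5 := (hall i.val i.2).trans h
        rw [haφ i] at h5
        generalize φ i = y at h5
        cases y <;> simp [kd] at h5
        exact ⟨_, rfl⟩
      choose f hf using hT
      refine hfree f (fun i j => ?_)
      rw [← hφ i j, hf i, hf j]
      rfl
    · have hblk : ∀ i, i < 11 → bl (a i) = bl (a 0) := by
        intro i
        induction i with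
        | zero => intro _; rfl
        | succ n ih =>
          intro h5
          rw [← ih (by omega)]
          refine (k7 ((hall n (by omega)).trans h) ((hall (n + 1) h5).trans h) ?_ ?_).symm
          · intro h6
            have := (ha _ _ (by omega) (by omega)).1 h6
            omega
          · intro h6
            have := (ha _ _ (by omega) (by omega)).1 h6
            omega
      have hV : ∀ i : Fin 11, ∃ r j x hx, φ i = V r j x hx ∧ (r.val, j.val) = bl (a 0) := by
        intro i
        have h5 := (hall i.val i.2).trans h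
        have h6 := hblk i.val i.2
        rw [haφ i] at h5 h6
        generalize φ i = y at h5 h6
        cases y <;> simp [kd] at h5
        exact ⟨_, _, _, _, rfl, h6⟩
      choose r j f hx hf hb using hV
      refine hfree f (fun i k => ?_)
      rw [← hφ i k, hf i, hf k]
      have h7 := (hb i).trans (hb k).symm
      simp only [Prod.mk.injEq] at h7
      simp only [le_def, le, lx]
      constructor
      · intro h8; right; exact ⟨h7.1, h7.2, h8⟩
      · rintro (h8 | h8)
        · exact absurd h7 h8.2
        · exact h8.2.2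

end

/-- The recursion step. -/
def step {w m : ℕ} (A : Wall w m) : Wall (w + 1) ((w + 1) * m + m) :=
  letI := A.po
  haveI := A.fin
  { P := Ext A.P A.col w m
    fin := Finite.of_injective _ code_inj
    po := inferInstance
    col := ecol
    ch := ech A.ch
    col_lt := ecol_lt A.col_lt
    ch_lt := ech_lt A.ch_lt
    ch_chain := ech_chain A.ch_lt A.ch_chain
    col_chain := ecol_chain A.col_lt A.col_chain
    wit := ewit A.col_lt A.wit A.surj
    surj := fun c hc => esurj A.col_lt A.surj c hc
    free := fun φ h => efree A.free φ h }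

/-- number of colours -/
def M : ℕ → ℕ
  | 0 => 1
  | w + 1 => (w + 2) * M w + M w

/-- the walls -/
def wall : ∀ w : ℕ, Wall (w + 1) (M w)
  | 0 => base
  | w + 1 => step (wall w)

theorem fact_le (w : ℕ) : (w + 1).factorial ≤ M w := by
  induction w with
  | zero => simp [M]
  | succ n ih =>
    have e : M (n + 1) = (n + 3) * M n := by simp only [M]; ring
    rw [e, Nat.factorial_succ]
    exact Nat.mul_le_mul (by omega) ih

end Pool.Agent.TH659.FF
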