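import Mathlib

set_option autoImplicit false

namespace Pool.Agent.TH659.FF

/-- The path poset: `i < j` iff `i + 2 ≤ j`. -/
structure Pth where
  val : Fin 11
deriving DecidableEq

noncomputable instance : Fintype Pth :=
  Fintype.ofInjective (fun p : Pth => p.val) (by rintro ⟨a⟩ ⟨b⟩ h; simpa using h)

instance : PartialOrder Pth where
  le a b := a.val.val = b.val.val ∨ a.val.val + 2 ≤ b.val.val
  le_refl a := Or.inl rfl
  le_trans a b c h1 h2 := by
    rcases h1 with h1 | h1 <;> rcases h2 with h2 | h2
    · left; omega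
    · right; omega
    · right; omega
    · right; omega
  le_antisymm a b h1 h2 := by
    have : a.val.val = b.val.val := by omega
    cases a; cases b
    congr 1
    exact Fin.ext this

theorem Pth.le_iff (a b : Pth) : a ≤ b ↔ (a.val.val = b.val.val ∨ a.val.val + 2 ≤ b.val.val) :=
  Iff.rfl

/-- A Grundy (First-Fit) wall of width at most `w` with `m` colours avoiding the path poset. -/
structure Wall (w m : ℕ) where
  P : Type
  fin : Finite P
  po : PartialOrder P
  col : P → ℕ
  ch : P → ℕ
  col_lt : ∀ x, col x < m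
  ch_lt : ∀ x, ch x < w
  ch_chain : ∀ x y, ch x = ch y → (x ≤ y ∨ y ≤ x)
  col_chain : ∀ x y, col x = col y → (x ≤ y ∨ y ≤ x)
  wit : ∀ x, ∀ c, c < col x → ∃ y, col y = c ∧ ¬ x ≤ y ∧ ¬ y ≤ x
  surj : ∀ c, c < m → ∃ x, col x = c
  free : ∀ φ : Fin 11 → P, ¬ (∀ i j : Fin 11, φ i ≤ φ j ↔ (i.val = j.val ∨ i.val + 2 ≤ j.val))

/-- Base wall: one point. -/
def base : Wall 1 1 where
  P := Unit
  fin := inferInstance
  po := inferInstance
  col _ := 0
  ch _ := 0
  col_lt _ := Nat.one_pos
  ch_lt _ := Nat.one_pos
  ch_chain _ _ _ := Or.inl le_rfl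
  col_chain _ _ _ := Or.inl le_rfl
  wit x c h := absurd h (Nat.not_lt_zero c)
  surj c h := ⟨(), by omega⟩
  free φ h := by
    have := (h 1 0).1 le_rfl
    simp at this

/-- The elements of the next poset. -/
inductive Ext (α : Type) (col : α → ℕ) (w m : ℕ) : Type
  | L (r : Fin w) (j : Fin m) : Ext α col w m
  | W (r : Fin (w + 1)) (j : Fin m) : Ext α col w m
  | T (a : α) : Ext α col w m
  | V (r : Fin (w + 1)) (j : Fin m) (a : α) (h : col a ≤ j.val) : Ext α col w m

/-- lexicographic comparison of positions -/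
def lx (r j r' j' : ℕ) : Prop := r < r' ∨ (r = r' ∧ j ≤ j')

namespace Ext

variable {α : Type} [PartialOrder α] {col : α → ℕ} {w m : ℕ}

/-- the order relation -/
def le : Ext α col w m → Ext α col w m → Prop
  | L r j, L r' j' => r.val = r'.val ∧ j.val ≤ j'.val
  | L r j, W r' j' => lx (r.val + 1) j.val r'.val j'.val
  | L _ _, T _ => True
  | L _ _, V _ _ _ _ => True
  | W _ _, L _ _ => False
  | W r j, W r' j' => lx r.val j.val r'.val j'.val
  | W _ _, T _ => False
  | W r j, V r' j' _ _ => lx r.val j.val r'.val j'.val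
  | T _, L _ _ => False
  | T _, W _ _ => False
  | T a, T b => a ≤ b
  | T _, V _ _ _ _ => True
  | V _ _ _ _, L _ _ => False
  | V _ _ _ _, W _ _ => False
  | V _ _ _ _, T _ => False
  | V r j a _, V r' j' b _ =>
      (lx r.val j.val r'.val j'.val ∧ ¬ (r.val = r'.val ∧ j.val = j'.val)) ∨
        (r.val = r'.val ∧ j.val = j'.val ∧ a ≤ b)

instance : PartialOrder (Ext α col w m) where
  le := le
  le_refl x := by
    cases x <;> simp [le, lx]
  le_trans x y z h1 h2 := by
    cases x <;> cases y <;> cases z <;> simp only [le, lx] at h1 h2 ⊢ <;>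
      first
        | trivial
        | omega
        | exact le_trans h1 h2
        | (rcases h1 with h1 | h1 <;> rcases h2 with h2 | h2 <;>
            first
              | (left; omega)
              | (right; exact ⟨by omega, by omega, le_trans h1.2.2 h2.2.2⟩))
  le_antisymm x y h1 h2 := by
    cases x <;> cases y <;> simp only [le, lx] at h1 h2
    case L.L r j r' j' =>
      have e1 : r = r' := Fin.ext (by omega)
      have e2 : j = j' := Fin.ext (by omega)
      rw [e1, e2]
    case W.W r j r' j' =>
      have e1 : r = r' := Fin.ext (by omega)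
      have e2 : j = j' := Fin.ext (by omega)
      rw [e1, e2]
    case T.T a b =>
      rw [le_antisymm h1 h2]
    case V.V r j a ha r' j' b hb =>
      have e1 : r = r' := Fin.ext (by omega)
      have e2 : j = j' := Fin.ext (by omega)
      have e3 : a = b := by
        rcases h1 with h1 | h1
        · omega
        · rcases h2 with h2 | h2
          · omega
          · exact le_antisymm h1.2.2 h2.2.2
      subst e1; subst e2; subst e3
      rfl

theorem le_def (x y : Ext α col w m) : x ≤ y ↔ le x y := Iff.rfl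

/-- the encoding used for finiteness -/
def code : Ext α col w m → (Fin w × Fin m) ⊕ (Fin (w + 1) × Fin m) ⊕ α ⊕ (Fin (w + 1) × Fin m × α)
  | L r j => Sum.inl (r, j)
  | W r j => Sum.inr (Sum.inl (r, j))
  | T a => Sum.inr (Sum.inr (Sum.inl a))
  | V r j a _ => Sum.inr (Sum.inr (Sum.inr (r, j, a)))

omit [PartialOrder α] in
theorem code_inj : Function.Injective (code : Ext α col w m → _) := by
  intro x y h
  cases x <;> cases y <;> simp [code] at h <;> simp [h]

/-- colour -/
def ecol : Ext α col w m → ℕ
  | L r j => (w - (r.val + 1)) * m + j.val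
  | W r j => (w - r.val) * m + j.val
  | T a => (w + 1) * m + col a
  | V r _ a _ => (w - r.val) * m + col a

/-- chain index, given a chain index on `α` -/
def ech (ch : α → ℕ) : Ext α col w m → ℕ
  | L r _ => r.val
  | W _ _ => w
  | T a => ch a
  | V _ _ a _ => ch a

end Ext

theorem dm {m q i q' i' : ℕ} (hi : i < m) (hi' : i' < m) (h : q * m + i = q' * m + i') :
    q = q' ∧ i = i' := by
  have hm : 0 < m := by omega
  have h1 : (q * m + i) / m = q := by
    rw [Nat.add_comm, Nat.add_mul_div_right _ _ hm, Nat.div_eq_of_lt hi, Nat.zero_add]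
  have h2 : (q' * m + i') / m = q' := by
    rw [Nat.add_comm, Nat.add_mul_div_right _ _ hm, Nat.div_eq_of_lt hi', Nat.zero_add]
  have h3 : q = q' := by rw [← h1, ← h2, h]
  subst h3
  exact ⟨rfl, by omega⟩

theorem dlt {m q i q' i' : ℕ} (hi' : i' < m) (h : q * m + i < q' * m + i') :
    q < q' ∨ (q = q' ∧ i < i') := by
  rcases Nat.lt_trichotomy q q' with h1 | h1 | h1
  · exact Or.inl h1
  · subst h1; right; exact ⟨rfl, by omega⟩
  · exfalso
    have : (q' + 1) * m ≤ q * m := Nat.mul_le_mul_right m h1
    have e : (q' + 1) * m = q' * m + m := by ring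
    omega

theorem dlt' {m q i n : ℕ} (h : q * m + i < n * m) : q < n := by
  by_contra hc
  have : n * m ≤ q * m := Nat.mul_le_mul_right m (not_lt.1 hc)
  omega

theorem lt_of_q {m q i n : ℕ} (hi : i < m) (h : q < n) : q * m + i < n * m := by
  have : (q + 1) * m ≤ n * m := Nat.mul_le_mul_right m h
  have e : (q + 1) * m = q * m + m := by ring
  omega

end Pool.Agent.TH659.FF
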